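import Mathlib
import Pool.Agent.KS6_42.GQ.Fin

/-!
# Graph products of finite groups up to quasi-isometry: an exact criterion for a two-parameter family

`Ex.Γ` is a graph on twelve vertices, and `Ex.orders p q` assigns the order `2` to ten of them and
the orders `p` and `q` to the other two.  For `p ≠ q` (both at least two) every graph product over
`Ex.Γ` with vertex groups of these orders is compared with *all* graph products of finite groups,
not only with right-angled Coxeter groups.
-/

set_option autoImplicit false

namespace Pool.Agent.Results.MP_97dbbf_al.AllVertexGroups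

open Pool.Agent.KS6_42.GQ

/-- Let `G` be a graph product over the twelve-vertex graph `Ex.Γ` of finite groups, ten of order
two and the other two of orders `p ≠ q`, both at least two.

* If `G` is quasi-isometric to the graph product of finite groups `B v` over a finite simplicial
  graph, then `p` or `q` divides the product of the orders of the `B v`.
* Let `π` be a set of primes containing two. Then `G` is quasi-isometric to a graph product of
  finite `π`-groups if and only if all prime factors of `p`, or all prime factors of `q`, are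
  in `π`.
* `G` is quasi-isometric to a right-angled Coxeter group if and only if `p` or `q` is a power of
  two. -/
theorem result (p q : ℕ) (hp : 2 ≤ p) (hq : 2 ≤ q) (hpq : p ≠ q) (A : Ex.Vx → Type)
    [∀ v, Group (A v)] [∀ v, Finite (A v)] (hA : ∀ v, Nat.card (A v) = Ex.orders p q v) :
    (∀ (V : Type) [Fintype V] (Γ : SimpleGraph V) (B : V → Type) [∀ v, Group (B v)]
      [∀ v, Finite (B v)], QuasiIsometric (GraphProd Ex.Γ A) (GraphProd Γ B) →
        p ∣ ∏ v, Nat.card (B v) ∨ q ∣ ∏ v, Nat.card (B v)) ∧
    (∀ π : Set ℕ, 2 ∈ π →
      ((∃ (V : Type) (_ : Finite V) (Γ : SimpleGraph V) (B : V → Type) (_ : ∀ v, Group (B v))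
        (_ : ∀ v, Finite (B v)), (∀ v r, r.Prime → r ∣ Nat.card (B v) → r ∈ π) ∧
          QuasiIsometric (GraphProd Ex.Γ A) (GraphProd Γ B)) ↔
        (∀ r, r.Prime → r ∣ p → r ∈ π) ∨ (∀ r, r.Prime → r ∣ q → r ∈ π))) ∧
    ((∃ (V : Type) (_ : Finite V) (Γ : SimpleGraph V),
        QuasiIsometric (GraphProd Ex.Γ A) (GraphProd Γ (fun _ => Multiplicative (ZMod 2)))) ↔
      (∃ k, p = 2 ^ k) ∨ (∃ k, q = 2 ^ k)) :=
  ⟨fun _ _ Γ B _ _ h => div_of_qi hp hq hpq A hA Γ B h,
    fun π h2 => iff_primes hp hq hpq A hA π h2,
    iff_racg hp hq hpq A hA⟩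

end Pool.Agent.Results.MP_97dbbf_al.AllVertexGroups
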