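import Mathlib
import Pool.Agent.KS6_39.RB.Blow

/-!
# Which orders of the vertex groups force a graph product of finite groups to be quasi-isometric
to a right-angled Coxeter group

* Graph products over the same finite graph with vertex groups of the same orders are
  quasi-isometric (even isometric in the metrics given by all vertex elements), and a vertex with
  group `Cᵏ` can be replaced by a clique of `k` vertices with group `C`. So a graph product whose
  vertex groups have orders powers of two is quasi-isometric to a right-angled Coxeter group.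
* If `n` is not a power of two, there is a graph product with vertex groups of orders `2` and `n`
  only which is not quasi-isometric to any right-angled Coxeter group: take the graph product of
  the example in `Pool.Agent.KS6_39.RB.Lines`, with vertex groups of orders `2`, `n` and `n ^ 2`,
  replace the cyclic group of order `n ^ 2` by `(ℤ/n)²`, and then that vertex by an edge.
-/

set_option autoImplicit false

namespace Pool.Agent.Results.MP_97dbbf_al.PowersOfTwo

open Pool.Agent.KS6_39.RB

/-- All orders powers of two. -/
theorem powers {V : Type} [Finite V] (Γ : SimpleGraph V) (A : V → Type) [∀ v, Group (A v)]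
    [∀ v, Finite (A v)] (k : V → ℕ) (hk : ∀ v, Nat.card (A v) = 2 ^ k v) :
    ∃ (W : Type) (_ : Finite W) (Λ : SimpleGraph W),
      QuasiIsometric (GraphProd Γ A) (GraphProd Λ (fun _ => Multiplicative (ZMod 2))) := by
  refine ⟨Σ v, Fin (k v), inferInstance, blowGraph Γ (fun v => Fin (k v)), ?_⟩
  have h1 : QuasiIsometric (GraphProd Γ A)
      (GraphProd Γ (PA (fun v => Fin (k v)) (fun _ : V => Multiplicative (ZMod 2)))) := by
    apply quasiIsometric_of_card
    intro v
    rw [hk v]
    simp [Nat.card_eq_fintype_card]
  have h2 := quasiIsometric_of_equiv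
    (blowEquiv Γ (fun v => Fin (k v)) (fun _ : V => Multiplicative (ZMod 2))).symm
  exact h1.trans h2

/-- The orders `n` and `n ^ 2`. -/
def par (n : ℕ) (h0 : n ≠ 0) (h : ∀ k : ℕ, n ≠ 2 ^ k) : Par where
  p := n
  q := n ^ 2
  hp := h0
  hq := pow_ne_zero 2 h0
  hne := by
    intro e
    have h1 := h 0
    have h2 : 1 < n := by
      rw [pow_zero] at h1
      omega
    nlinarith
  np := h
  nq := by
    intro k hk
    have h1 : n ∣ 2 ^ k := by
      rw [← hk]
      exact dvd_pow_self n (by norm_num)
    obtain ⟨j, _, hj⟩ := (Nat.dvd_prime_pow Nat.prime_two).mp h1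
    exact h j hj

/-- The orders in the new example, by vertices of the old one. -/
def m0 (n : ℕ) : Ex.Vx → ℕ
  | Sum.inl _ => 2
  | Sum.inr _ => n

/-- The sizes of the cliques. -/
def ex : Ex.Vx → ℕ
  | Sum.inl _ => 1
  | Sum.inr false => 1
  | Sum.inr true => 2

/-- Orders `2` and `n` suffice if `n` is not a power of two. -/
theorem exists_example {n : ℕ} (h0 : n ≠ 0) (h : ∀ k : ℕ, n ≠ 2 ^ k) :
    ∃ (V : Type) (_ : Finite V) (Γ : SimpleGraph V) (m : V → ℕ),
      (∀ v, m v = 2 ∨ m v = n) ∧
      ∀ (W : Type) (_ : Finite W) (Λ : SimpleGraph W),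
        ¬ QuasiIsometric (GraphProd Γ (fun v => Multiplicative (ZMod (m v))))
          (GraphProd Λ (fun _ => Multiplicative (ZMod 2))) := by
  letI := par n h0 h
  haveI : NeZero n := ⟨h0⟩
  haveI hfin : ∀ v : Ex.Vx, NeZero (m0 n v) := by
    rintro (v | v)
    · exact ⟨two_ne_zero⟩
    · exact ⟨h0⟩
  refine ⟨Σ v, Fin (ex v), inferInstance, blowGraph Ex.Γ (fun v => Fin (ex v)),
    fun p => m0 n p.1, ?_, ?_⟩
  · rintro ⟨v | v, i⟩
    · exact Or.inl rfl
    · exact Or.inr rfl
  · intro W _ Λ hq
    refine not_qi Λ ?_
    have h1 : QuasiIsometric Ex.G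
        (GraphProd Ex.Γ (PA (fun v => Fin (ex v)) (fun v => Multiplicative (ZMod (m0 n v))))) := by
      apply quasiIsometric_of_card
      intro v
      have e1 : Nat.card (Multiplicative (ZMod (Ex.ord v))) = Ex.ord v := Nat.card_zmod _
      have e2 : Nat.card (Fin (ex v) → Multiplicative (ZMod (m0 n v))) = m0 n v ^ ex v := by
        have e3 : Nat.card (Multiplicative (ZMod (m0 n v))) = m0 n v := Nat.card_zmod _
        rw [Nat.card_fun, Nat.card_fin, e3]
      rw [e1]
      refine Eq.trans ?_ e2.symm
      rcases v with v | v
      · rfl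
      · cases v
        · exact (pow_one n).symm
        · rfl
    have h2 := quasiIsometric_of_equiv
      (blowEquiv Ex.Γ (fun v => Fin (ex v)) (fun v => Multiplicative (ZMod (m0 n v)))).symm
    exact (h1.trans h2).trans hq

/-- Let `S` be a set of positive integers which contains `2`. Every graph product over a finite
simplicial graph of finite groups with orders in `S` is quasi-isometric to some right-angled
Coxeter group, that is, to some graph product over a finite simplicial graph with all vertex
groups of order two, if and only if all members of `S` are powers of two. -/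
theorem result (S : Set ℕ) (h0 : 0 ∉ S) (h2 : 2 ∈ S) :
    (∀ (V : Type) (_ : Finite V) (Γ : SimpleGraph V) (A : V → Type) (_ : ∀ v, Group (A v)),
      (∀ v, Finite (A v)) → (∀ v, Nat.card (A v) ∈ S) →
      ∃ (W : Type) (_ : Finite W) (Λ : SimpleGraph W),
        QuasiIsometric (GraphProd Γ A) (GraphProd Λ (fun _ => Multiplicative (ZMod 2)))) ↔
    ∀ n ∈ S, ∃ k : ℕ, n = 2 ^ k := by
  constructor
  · intro H n hn
    by_contra hk
    push Not at hk
    have hn0 : n ≠ 0 := fun e => h0 (e ▸ hn)
    obtain ⟨V, _, Γ, m, hm, hnot⟩ := exists_example hn0 hk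
    have hm0 : ∀ v, m v ≠ 0 := by
      intro v
      rcases hm v with e | e <;> rw [e]
      · exact two_ne_zero
      · exact hn0
    haveI : ∀ v, NeZero (m v) := fun v => ⟨hm0 v⟩
    obtain ⟨W, hW, Λ, hq⟩ := H V inferInstance Γ (fun v => Multiplicative (ZMod (m v)))
      inferInstance inferInstance (by
        intro v
        have e : Nat.card (Multiplicative (ZMod (m v))) = m v := Nat.card_zmod _
        rw [e]
        rcases hm v with e | e <;> rw [e]
        · exact h2
        · exact hn)
    exact hnot W hW Λ hq
  · intro H V _ Γ A _ _ hA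
    choose k hk using fun v => H _ (hA v)
    exact powers Γ A k hk

end Pool.Agent.Results.MP_97dbbf_al.PowersOfTwo
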